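import Pool.Agent.Run7.h509.Tp3

/-!
# Highly twisted knotoid diagrams on series-parallel templates

Diagrams: `Pool.Agent.H891R2.Jones.Diagram` (`Diagram`: oriented diagrams with marked points; `D.fPoly`: the
normalised bracket; the number of components of a state counts circles and intervals) and
`Pool.Agent.H891R2.MT.Defs` (`UDiagram`, `Orients D U`: `D` is `U` with directions).  `IsKnotoid D` (in
`Pool.Agent.H832R3.TW.E`): the pieces of `D` form one oriented interval, running from a marked point `tail` to a
different marked point `head`, and (possibly) oriented closed curves.  `FSpanLE s D`: `f_D` is supported in an
interval of length at most `4 s`; for instance `f_D = 1` and `s = 0`.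

Templates: `Pool.Agent.H832R3.TW.Defs` (`Corner k`: the `4 k` corners of `k` boxes; a template is the list
`arcs` of the pairs of corners joined outside of the boxes; `twisted arcs n`: the diagram in which the box `e`
contains a row of `|n e|` crossings of the kind given by the sign of `n e`; `loops arcs S`: the number of
components if the boxes `e ∈ S` contain two vertical strands (along the row) and the other boxes two
horizontal ones (the box is cut)).

New definitions (`Pool.Agent.Run7.h509.Tp`, `Tp3`, `Defs`):

* `OpenT arcs`: two corners (the endpoints of the interval) belong to no arc, and every other corner is joined by
  an arc to exactly one other corner.  Neither planarity nor a bound for the height is required.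
* `pieces arcs X`: the number of connected pieces of the diagram in which the boxes outside `X` are cut and every
  box in `X` counts as one piece with its four corners.
* `ReducedT arcs univ`: the diagram remains connected if one or two boxes are cut.  (A box which
  disconnects the diagram if it is cut is nugatory; two boxes which disconnect it can be united by a flype, if
  the diagram is drawn in the sphere.)
* `SpansT arcs A`: `|Aᶜ| + pieces Aᶜ = loops ∅`; the boxes outside `A`, as edges between the components of the
  state `∅` (all boxes cut), form a forest (always true for `A = univ`).
* `gT arcs`: the rank function of the cycle matroid of the graph `G` whose vertices are the components of the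
  state `∅` and whose edges are the boxes: `gT arcs X = pieces ∅ - pieces X`.
* `SP r univ ∅`: the matroid with the rank function `r` is series-parallel, that is, it can be reduced to the
  empty matroid by deleting loops, contracting coloops, deleting one of two parallel elements and contracting
  one of two elements in series.  So `SP (gT arcs) univ ∅` says that the graph `G` is series-parallel.

Proof: if the span is small then the exponents decompose into clusters which cancel, and the sum of
`∏_{e ∈ Q} (u e - 1)` over the spanning sets `Q` of the dual of the cycle matroid of `G` vanishes for all `u`
which are constant on the clusters.  By Cramer's rule there is such a vector with `|u e| = 1` and `u e ≠ 1` for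
all `e` with `|n e| > k k! (4 k + s + 1)`.  But for a series-parallel matroid without loops and parallel elements
the sum is not zero if the elements with `u e ≠ 1` span.
-/

set_option autoImplicit false

namespace Pool.Agent.Results.MP_79b4ff_gt.HighlyTwistedKnotoids

open Finset Pool.Agent.H891R2.Jones Pool.Agent.H891R2.MT Pool.Agent.H832R3.TW Run7.h509 Run7.h509.Tp

/-- Let `arcs` be a reduced template of a knotoid diagram with `k ≥ 1` boxes for which the graph, with the
components of the state `∅` as vertices and the boxes as edges, is series-parallel.  Let `n ∈ ℤ^k`, with arbitrary
signs, have `|n e| > k k! (4 k + s + 1)` for all boxes `e` in a spanning set `A` (for example for all boxes).  Then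
the normalised bracket of the knotoid diagram with `|n e|` crossings in the box `e` is not supported in an
interval of length `4 s`, and it is not `1`. -/
theorem result {k : ℕ} (arcs : List (Corner k × Corner k)) (hk : 0 < k) (ho : OpenT arcs)
    (hred : ReducedT arcs Finset.univ) (hSP : SP (gT arcs) Finset.univ ∅) (s : ℕ) (A : Finset (Fin k))
    (hA : SpansT arcs A) (n : Fin k → ℤ)
    (hn : ∀ e ∈ A, (k * k.factorial * (4 * k + s + 1) : ℤ) < |n e|)
    (D : Diagram (Ribbon.Pt n)) (hD : Orients D (twisted arcs n)) (_ : IsKnotoid D) :
    D.fPoly ≠ 1 ∧ ¬ FSpanLE s D := by
  have key := spT (Or.inr ho) hk hred hSP A hA s n hn D hD
  exact ⟨fun h1 => key (one_span s h1), key⟩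

end Pool.Agent.Results.MP_79b4ff_gt.HighlyTwistedKnotoids
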