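import Pool.Agent.Run7.h509.Tp3

/-!
# Coincidences between the states of highly twisted knotoid diagrams with a short bracket

Diagrams: `Pool.Agent.H891R2.Jones.Diagram` (`Diagram`: oriented diagrams with marked points; `D.fPoly`: the
normalised bracket; the number of components of a state counts circles and intervals) and
`Pool.Agent.H891R2.MT.Defs` (`UDiagram`, `Orients D U`: `D` is `U` with directions).  `IsKnotoid D` (in
`Pool.Agent.H832R3.TW.E`): the pieces of `D` form one oriented interval, running from a marked point `tail` to a
different marked point `head`, and (possibly) oriented closed curves.  `FSpanLE s D`: `f_D` is supported in an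
interval of length at most `4 s`; for instance `f_D = 1` and `s = 0`.

Templates: `Pool.Agent.H832R3.TW.Defs` (`Corner k`: the `4 k` corners of `k` boxes; a template is the list
`arcs` of the pairs of corners joined outside of the boxes; `twisted arcs n`: the diagram in which the box `e`
contains a row of `|n e|` crossings of the kind given by the sign of `n e`; `loops arcs S`: the number of
components if the boxes `e ∈ S` contain two vertical strands (along the row) and the other boxes two
horizontal ones (the box is cut)).

New definitions (`Pool.Agent.Run7.h509.Tp`, `Tp2`, `Tp3`, `Abs`):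

* `OpenT arcs`: two corners (the endpoints of the interval) belong to no arc, and every other corner is joined by
  an arc to exactly one other corner.  Neither planarity nor a bound for the height is required.
* `pieces arcs X`: the number of connected pieces of the diagram in which the boxes outside `X` are cut and every
  box in `X` counts as one piece with its four corners.
* `SpansT arcs Y`: `|Yᶜ| + pieces Yᶜ = loops ∅`; the boxes outside `Y`, as edges between the components of the
  state `∅` (all boxes cut), form a forest (always true for `Y = univ`).
* `rkT arcs Q = |Q| + pieces univ - pieces Qᶜ`: the rank of `Q` in the dual of the cycle matroid of the graph with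
  the components of the state `∅` as vertices and the boxes as edges.
* `FlatIn r Y F`: `F ⊆ Y`, and the rank of `F` increases by `1` if any element of `Y \ F` is added.  For instance
  `Y` is a flat, and `∅` is a flat if no box in `Y` is nugatory.

Proof: the bracket of the diagram is, up to a unit and a power of `δ = - A² - A⁻²`, the sum of
`(- A⁻⁴)^{n(R)} Z(R)` over the sets `R` of boxes.  If its span is small, then the exponents decompose into
clusters, and the lowest order terms at `δ = 0` of the `Z(R)` cancel in every cluster.  The lowest order term
of `Z(R)` is `0` if `R` is not a flat, and it has the sign `(-1)^{r(Y) - r(R)}` if `R` is a flat.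
-/

set_option autoImplicit false

namespace Pool.Agent.Results.MP_79b4ff_gt.KnotoidFlatPartners

open Finset Pool.Agent.H891R2.Jones Pool.Agent.H891R2.MT Pool.Agent.H832R3.TW Run7.h509.Abs Run7.h509.Tp

/-- Let `arcs` be a connected template of a knotoid diagram with `k` boxes, and let `Y` be a nonempty spanning set
of boxes none of which is nugatory (the diagram remains connected if the box is cut).  Let `D` be the
diagram with `|n e|` crossings in the box `e`.  Two sets `R`, `R' ⊆ Y` are called near if
`|n(R) - n(R')| ≤ 4 k + s + 1 + ∑_{e ∉ Y} |n e|`, where `n(R) = ∑_{e ∈ R} n e`.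

* Suppose that the normalised bracket of `D` is `1` or is supported in an interval of length `4 s`.  Let `𝒞` be a
  family of subsets of `Y` which contains with a set all sets near to it.  If `𝒞` contains a flat, then it
  contains a flat whose rank has the other parity.
* In particular every flat `F` of `Y` (for instance `F = ∅` and `F = Y`) is near to another set `R ⊆ Y`.
* So if `|n(R)| > 4 k + s + 1 + ∑_{e ∉ Y} |n e|` for all nonempty sets `R ⊆ Y` (for `Y = univ`: if no nonempty set of
  boxes has, with signs, almost as many positive as negative crossings), then the normalised bracket of `D`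
  is not `1` and not supported in an interval of length `4 s`. -/
theorem result {k : ℕ} (arcs : List (Corner k × Corner k)) (ho : OpenT arcs) (Y : Finset (Fin k))
    (hY : Y.Nonempty) (h1 : pieces arcs Finset.univ = 1) (h2 : ∀ e ∈ Y, pieces arcs {e}ᶜ = 1)
    (hsp : SpansT arcs Y) (s : ℕ) (n : Fin k → ℤ)
    (D : Diagram (Ribbon.Pt n)) (hD : Orients D (twisted arcs n)) (_ : IsKnotoid D) :
    (D.fPoly = 1 ∨ FSpanLE s D →
      (∀ 𝒞 : Finset (Finset (Fin k)), (∀ R ∈ 𝒞, R ⊆ Y) →
        (∀ R ∈ 𝒞, ∀ R' ⊆ Y,
          |∑ e ∈ R, n e - ∑ e ∈ R', n e| ≤ 4 * k + s + 1 + ∑ e ∈ Yᶜ, |n e| → R' ∈ 𝒞) →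
        ∀ F ∈ 𝒞, FlatIn (rkT arcs) Y F → ∃ F' ∈ 𝒞, FlatIn (rkT arcs) Y F' ∧
          Odd (rkT arcs F + rkT arcs F')) ∧
      ∀ F, FlatIn (rkT arcs) Y F → ∃ R ⊆ Y, R ≠ F ∧
        |∑ e ∈ F, n e - ∑ e ∈ R, n e| ≤ 4 * k + s + 1 + ∑ e ∈ Yᶜ, |n e|) ∧
    ((∀ R ⊆ Y, R.Nonempty → 4 * k + s + 1 + ∑ e ∈ Yᶜ, |n e| < |∑ e ∈ R, n e|) →
      D.fPoly ≠ 1 ∧ ¬ FSpanLE s D) := by
  constructor
  · intro h
    have h' : FSpanLE s D := by
      rcases h with h | h
      · exact one_span s h
      · exact h
    exact parityT (Or.inr ho) hY h1 h2 hsp s n D hD h'
  · intro h
    have key := zeroT (Or.inr ho) hY h1 h2 hsp s n h D hD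
    exact ⟨fun h1 => key (one_span s h1), key⟩

end Pool.Agent.Results.MP_79b4ff_gt.KnotoidFlatPartners
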