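import Pool.Agent.Run7.h509.Tp3

/-!
# Highly twisted knotoid diagrams with a series-parallel part

Diagrams: `Pool.Agent.H891R2.Jones.Diagram` (`Diagram`: oriented diagrams with marked points; `D.fPoly`: the
normalised bracket; the number of components of a state counts circles and intervals) and
`Pool.Agent.H891R2.MT.Defs` (`UDiagram`, `Orients D U`: `D` is `U` with directions).  `IsKnotoid D` (in
`Pool.Agent.H832R3.TW.E`): the pieces of `D` form one oriented interval, running from a marked point `tail` to a
different marked point `head`, and (possibly) oriented closed curves.  `FSpanLE s D`: `f_D` is supported in an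
interval of length at most `4 s`; for instance `f_D = 1` and `s = 0`.

Templates: `Pool.Agent.H832R3.TW.Defs` (`Corner k`: the `4 k` corners of `k` boxes; a template is the list
`arcs` of the pairs of corners joined outside of the boxes; `twisted arcs n`: the diagram in which the box `e`
contains a row of `|n e|` crossings of the kind given by the sign of `n e`; `loops arcs S`: the number of
components if the boxes `e ∈ S` contain two vertical strands (along the row) and the other boxes two
horizontal ones (the box is cut)).

New definitions (`Pool.Agent.Run7.h509.Tp`, `Tp3`, `Defs`):

* `OpenT arcs`: two corners (the endpoints of the interval) belong to no arc, and every other corner is joined by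
  an arc to exactly one other corner.  Neither planarity nor a bound for the height is required.
* `pieces arcs X`: the number of connected pieces of the diagram in which the boxes outside `X` are cut and every
  box in `X` counts as one piece with its four corners.
* `ReducedT arcs Y`: the diagram remains connected if one or two of the boxes in `Y` are cut.
* `SpansT arcs Y`: `|Yᶜ| + pieces Yᶜ = loops ∅`; the boxes outside `Y`, as edges between the components of the
  state `∅` (all boxes cut), form a forest.
* `gT arcs`: the rank function of the cycle matroid of the graph `G` whose vertices are the components of the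
  state `∅` and whose edges are the boxes: `gT arcs X = pieces ∅ - pieces X`.
* `SP r Y C`: the minor of the matroid with rank function `r` with the elements `Y`, in which the elements
  of `C` are contracted and all others are deleted, is series-parallel: it can be reduced to the empty
  matroid by deleting loops, contracting coloops, deleting one of two parallel elements and
  contracting one of two elements in series.  So `SP (gT arcs) Y Yᶜ` says that the graph with the edges `Y` which
  is obtained from `G` by contracting all other edges is series-parallel.  (`G` itself may be any graph.)
* `errT k c s C = (k + 1) (k + 1)! c^(k + 1) (4 k + s + 1 + C)`.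

Proof: if the span is small, then the exponents decompose into clusters which cancel, and the sum of
`∏_{e ∈ Q} (u e - 1)` over the spanning sets `Q` of the dual of the cycle matroid of `G` vanishes for all `u`
constant on the clusters.  By Cramer's rule there are rational numbers `y e` near `n e` and `m` near `M` with
`y e = a e m` for `e ∉ Y` such that `u e = exp (2 π i y e / m)` is constant on the clusters.  So `u e = 1` for `e ∉ Y`
and `u e ≠ 1` for `e ∈ Y`, and the sum reduces to the matroid restricted to `Y`, which is series-parallel;
for such matroids it is not zero.
-/

set_option autoImplicit false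

namespace Pool.Agent.Results.MP_79b4ff_gt.KnotoidSeriesParallelPart

open Finset Pool.Agent.H891R2.Jones Pool.Agent.H891R2.MT Pool.Agent.H832R3.TW Run7.h509 Run7.h509.Tp

/-- Let `arcs` be a template of a knotoid diagram with `k` boxes, and let `Y` be a nonempty spanning set of boxes
which are reduced and for which the graph with the edges `Y` (the other boxes contracted) is series-parallel.

* Suppose that the numbers of crossings of the boxes outside `Y` are near to multiples of a number `M` and
  those of the boxes in `Y` are not: there are integers `a e`, `|a e| ≤ c`, with `|n e - a e M| ≤ C` for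
  `e ∉ Y`, and `|n e - j M| > B (|j| + 1)` for all `e ∈ Y` and all integers `j`, where
  `B = errT k c s C < M`.  Then the normalised bracket of the knotoid diagram with `|n e|` crossings in the box
  `e` is not `1` and is not supported in an interval of length `4 s`.
* This is the case if the boxes outside `Y` are short or have maximal length: `|n e| ≤ C` or
  `M ≤ |n e| ≤ M + C` for `e ∉ Y`, and `B < |n e| < M - 2 B` for `e ∈ Y`, where `B = errT k 1 s C`.

The signs of the `n e` are arbitrary. -/
theorem result {k : ℕ} (arcs : List (Corner k × Corner k)) (ho : OpenT arcs) (Y : Finset (Fin k))
    (hY : Y.Nonempty) (hred : ReducedT arcs Y) (hsp : SpansT arcs Y) (hSP : SP (gT arcs) Y Yᶜ)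
    (s C : ℕ) (n : Fin k → ℤ) (M : ℤ)
    (h : (∃ (c : ℕ) (a : Fin k → ℤ), 1 ≤ c ∧ errT k c s C < M ∧
        (∀ e, e ∉ Y → |a e| ≤ c ∧ |n e - a e * M| ≤ C) ∧
        ∀ e ∈ Y, ∀ j : ℤ, errT k c s C * (|j| + 1) < |n e - j * M|) ∨
      ((∀ e, e ∉ Y → |n e| ≤ C ∨ (M ≤ |n e| ∧ |n e| ≤ M + C)) ∧
        ∀ e ∈ Y, errT k 1 s C < |n e| ∧ |n e| < M - 2 * errT k 1 s C))
    (D : Diagram (Ribbon.Pt n)) (hD : Orients D (twisted arcs n)) (_ : IsKnotoid D) :
    D.fPoly ≠ 1 ∧ ¬ FSpanLE s D := by
  have key : ¬ FSpanLE s D := by
    rcases h with ⟨c, a, hc, hM, h1, h2⟩ | ⟨h1, h2⟩
    · exact resT (Or.inr ho) hY hred hsp hSP s C c hc n M a (fun e he => (h1 e he).1) hM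
        (fun e he => (h1 e he).2) h2 D hD
    · exact maxT (Or.inr ho) hY hred hsp hSP s C n M h1 h2 D hD
  exact ⟨fun h1 => key (one_span s h1), key⟩

end Pool.Agent.Results.MP_79b4ff_gt.KnotoidSeriesParallelPart
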